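import Pool.Agent.Q138.TropRank

set_option autoImplicit false

/-!
# Tropical rank versus dimension for semimodules on polyhedral spaces

`troprank g` and `mdim g` are the tropical rank and the dimension of the semimodule `M` generated
by the functions `g 0, …, g (l - 1)`.
-/

namespace Pool.Agent.Results.MP_8916ec_co.RankDimension

open Q138.TropRank

/-- A closed convex polyhedron: a finite intersection of closed half-spaces. -/
def IsPolyhedron {d : ℕ} (P : Set (Fin d → ℝ)) : Prop :=
  ∃ (n : ℕ) (a : Fin n → (Fin d → ℝ)) (b : Fin n → ℝ), P = {x | ∀ i, ∑ k, a i k * x k ≤ b i}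

/-- A polyhedral subspace of `ℝ^d`: a finite union of closed convex polyhedra. -/
def IsPolyhedralSubspace {d : ℕ} (Y : Set (Fin d → ℝ)) : Prop :=
  ∃ (n : ℕ) (P : Fin n → Set (Fin d → ℝ)), (∀ i, IsPolyhedron (P i)) ∧ Y = ⋃ i, P i

/-- A piecewise linear function on `Y`: a continuous function that is affine on each of finitely
many closed convex polyhedra whose union is `Y`. -/
def IsPL {d : ℕ} (Y : Set (Fin d → ℝ)) (f : Y → ℝ) : Prop :=
  Continuous f ∧ ∃ (n : ℕ) (P : Fin n → Set (Fin d → ℝ)), (∀ i, IsPolyhedron (P i)) ∧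
    (Y = ⋃ i, P i) ∧ ∀ i, ∃ (a : Fin d → ℝ) (b : ℝ), ∀ x : Y, (x : Fin d → ℝ) ∈ P i →
      f x = ∑ k, a k * (x : Fin d → ℝ) k + b

/-- The half-line `[0, ∞)` in `ℝ^1`. -/
def halfLine : Set (Fin 1 → ℝ) := {x | 0 ≤ x 0}

theorem halfLine_polyhedron : IsPolyhedron halfLine := by
  refine ⟨1, fun _ _ => -1, fun _ => 0, ?_⟩
  ext x
  simp [halfLine]

theorem pl_of_affine (a : Fin 1 → ℝ) :
    IsPL halfLine fun x => ∑ k, a k * (x : Fin 1 → ℝ) k := by
  refine ⟨?_, 1, fun _ => halfLine, fun _ => halfLine_polyhedron, ?_, fun _ => ⟨a, 0, ?_⟩⟩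
  · refine continuous_finsetSum _ fun k _ => ?_
    exact continuous_const.mul ((continuous_apply k).comp continuous_subtype_val)
  · exact (Set.iUnion_const _).symm
  · intro x _
    rw [add_zero]

/-- The complete answer. (1) For all real functions `g j` on any set, the tropical rank and the
dimension of the generated semimodule agree if all differences `g i - g j` are bounded, and the
tropical rank is infinite otherwise (the dimension is at most the number of generators).
(2) The equality asked for in Q1 holds for every compact polyhedral subspace.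
(3) It does not hold for every polyhedral subspace: it fails for the half-line. -/
theorem result :
    (∀ (Y : Type) (l : ℕ) (g : Fin l → Y → ℝ),
      ((∃ B : ℝ, ∀ i j x, g i x - g j x ≤ B) → troprank g = mdim g) ∧
      ((¬ ∃ B : ℝ, ∀ i j x, g i x - g j x ≤ B) → troprank g = ⊤) ∧ mdim g ≤ l) ∧
    (∀ (d : ℕ) (Y : Set (Fin d → ℝ)), IsPolyhedralSubspace Y → IsCompact Y →
      ∀ (l : ℕ) (g : Fin l → Y → ℝ), (∀ j, IsPL Y (g j)) → troprank g = mdim g) ∧
    ¬ (∀ (d : ℕ) (Y : Set (Fin d → ℝ)), IsPolyhedralSubspace Y →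
      ∀ (l : ℕ) (g : Fin l → Y → ℝ), 1 ≤ l → (∀ j, IsPL Y (g j)) → troprank g = mdim g) := by
  refine ⟨fun Y l g => ⟨?_, troprank_top g, ?_⟩, ?_, ?_⟩
  · rintro ⟨B, hB⟩
    exact troprank_eq g B hB
  · unfold mdim
    by_cases hne : {n | ∃ f, (fibre g f).Nonempty ∧ n = l - polyDim (fibre g f)}.Nonempty
    · refine csSup_le hne ?_
      rintro _ ⟨f, _, rfl⟩
      exact Nat.sub_le _ _
    · rw [Set.not_nonempty_iff_eq_empty] at hne
      rw [hne, csSup_empty]
      exact Nat.zero_le _
  · intro d Y _ hY l g hg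
    have h1 : ∀ p : Fin l × Fin l, ∃ B : ℝ, ∀ x, g p.1 x - g p.2 x ≤ B := by
      intro p
      have : CompactSpace Y := isCompact_iff_compactSpace.1 hY
      have h2 : Continuous fun x => g p.1 x - g p.2 x := (hg p.1).1.sub (hg p.2).1
      obtain ⟨B, hB⟩ := (isCompact_range h2).bddAbove
      exact ⟨B, fun x => hB ⟨x, rfl⟩⟩
    choose B hB using h1
    by_cases hl : Nonempty (Fin l)
    · obtain ⟨p, hp⟩ := Finite.exists_max B
      exact troprank_eq g (B p) fun i j x => (hB (i, j) x).trans (hp (i, j))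
    · exact troprank_eq g 0 fun i => absurd ⟨i⟩ hl
  · intro h
    let g : Fin 2 → halfLine → ℝ := fun i x => ∑ k, (fun _ => -(i : ℝ)) k * (x : Fin 1 → ℝ) k
    have h1 := h 1 halfLine ⟨1, fun _ => halfLine, fun _ => halfLine_polyhedron,
      (Set.iUnion_const _).symm⟩ 2 g
      (by norm_num) fun j => pl_of_affine _
    rw [troprank_top g] at h1
    · exact ENat.natCast_ne_top _ h1.symm
    · rintro ⟨B, hB⟩
      have h2 := hB 0 1 ⟨fun _ => |B| + 1, by
        show (0 : ℝ) ≤ |B| + 1
        positivity⟩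
      simp [g] at h2
      have := le_abs_self B
      linarith

end Pool.Agent.Results.MP_8916ec_co.RankDimension
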